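import Mathlib

/-! Verifiers with symmetries: commutants and minimal invariant subspaces. -/

set_option autoImplicit false

open Module

namespace Pool.Agent.TH269.GS

variable {V : Type} [NormedAddCommGroup V] [InnerProductSpace ℂ V] [FiniteDimensional ℂ V]
  [CompleteSpace V]

/-- `C` commutes with all elements of `𝒢` -/
def InComm (𝒢 : Set (V →L[ℂ] V)) (C : V →L[ℂ] V) : Prop := ∀ g ∈ 𝒢, ∀ v, g (C v) = C (g v)

/-- invariant subspaces -/
def Inv (𝒢 : Set (V →L[ℂ] V)) (W : Submodule ℂ V) : Prop := ∀ g ∈ 𝒢, ∀ w ∈ W, g w ∈ W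

/-- minimal invariant subspaces -/
def Mini (𝒢 : Set (V →L[ℂ] V)) (W : Submodule ℂ V) : Prop :=
  Inv 𝒢 W ∧ W ≠ ⊥ ∧ ∀ W', Inv 𝒢 W' → W' ≤ W → W' ≠ ⊥ → W' = W

/-- closed under adjoints -/
def StarClosed (𝒢 : Set (V →L[ℂ] V)) : Prop := ∀ g ∈ 𝒢, ContinuousLinearMap.adjoint g ∈ 𝒢

variable {𝒢 : Set (V →L[ℂ] V)}

theorem exists_mini {T : Submodule ℂ V} (hT : Inv 𝒢 T) (h0 : T ≠ ⊥) :
    ∃ W, Mini 𝒢 W ∧ W ≤ T := by
  have hne : {W : Submodule ℂ V | Inv 𝒢 W ∧ W ≠ ⊥ ∧ W ≤ T}.Nonempty := ⟨T, hT, h0, le_rfl⟩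
  obtain ⟨W, ⟨hW1, hW2, hW3⟩, hmin⟩ :=
    (wellFounded_lt (α := Submodule ℂ V)).has_min _ hne
  refine ⟨W, ⟨hW1, hW2, fun W' h1 h2 h3 => ?_⟩, hW3⟩
  by_contra h4
  exact hmin W' ⟨h1, h3, h2.trans hW3⟩ (lt_of_le_of_ne h2 h4)

theorem inv_orth (hS : StarClosed 𝒢) {W : Submodule ℂ V} (hW : Inv 𝒢 W) : Inv 𝒢 Wᗮ := by
  intro g hg v hv
  rw [Submodule.mem_orthogonal] at hv ⊢
  intro u hu
  rw [← ContinuousLinearMap.adjoint_inner_left]
  exact hv _ (hW _ (hS g hg) u hu)

theorem sSup_mini (hS : StarClosed 𝒢) : sSup {W : Submodule ℂ V | Mini 𝒢 W} = ⊤ := by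
  set S := sSup {W : Submodule ℂ V | Mini 𝒢 W} with hSdef
  have hinv : Inv 𝒢 S := by
    intro g hg
    have h1 : S ≤ S.comap (g : V →ₗ[ℂ] V) := by
      refine sSup_le fun W hW w hw => ?_
      rw [Submodule.mem_comap]
      exact (le_sSup hW : W ≤ S) (hW.1 g hg w hw)
    exact fun w hw => h1 hw
  by_contra hne
  have h1 : Sᗮ ≠ ⊥ := fun h => hne (Submodule.orthogonal_eq_bot_iff.1 h)
  obtain ⟨W, hW, hWS⟩ := exists_mini (inv_orth hS hinv) h1
  have h2 : W ≤ S := le_sSup hW
  apply hW.2.1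
  rw [eq_bot_iff]
  intro w hw
  have h3 : w ∈ S ⊓ Sᗮ := ⟨h2 hw, hWS hw⟩
  rwa [Submodule.inf_orthogonal_eq_bot] at h3

/-- a spanning family of vectors in minimal invariant subspaces -/
theorem exists_family (hS : StarClosed 𝒢) :
    ∃ w : Fin (finrank ℂ V) → V, (∀ j, ∃ W, Mini 𝒢 W ∧ w j ∈ W) ∧
      Submodule.span ℂ (Set.range w) = ⊤ := by
  set X : Set V := {v | ∃ W, Mini 𝒢 W ∧ v ∈ W} with hX
  have hspan : Submodule.span ℂ X = ⊤ := by
    rw [eq_top_iff, ← sSup_mini hS]
    refine sSup_le fun W hW w hw => Submodule.subset_span ⟨W, hW, hw⟩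
  obtain ⟨f, hf, hs, -⟩ := Submodule.exists_fun_fin_finrank_span_eq ℂ X
  have hs' := hs.trans hspan
  have h1 : finrank ℂ (Submodule.span ℂ X) = finrank ℂ V := by rw [hspan, finrank_top]
  refine ⟨fun j => f (Fin.cast h1.symm j), fun j => hf _, ?_⟩
  have h2 : Set.range (fun j => f (Fin.cast h1.symm j)) = Set.range f := by
    ext x
    constructor
    · rintro ⟨j, rfl⟩
      exact ⟨_, rfl⟩
    · rintro ⟨j, rfl⟩
      exact ⟨Fin.cast h1 j, by simp⟩
  rw [h2, hs']

/-- the orthogonal projection onto an invariant subspace commutes with `𝒢` -/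
theorem proj_comm (hS : StarClosed 𝒢) {W : Submodule ℂ V} (hW : Inv 𝒢 W) :
    InComm 𝒢 W.starProjection := by
  intro g hg v
  refine (Submodule.eq_starProjection_of_mem_orthogonal
    (hW g hg _ (Submodule.starProjection_apply_mem W v)) ?_).symm
  rw [← map_sub]
  exact inv_orth hS hW g hg _ (Submodule.sub_starProjection_mem_orthogonal v)

theorem comm_adjoint (hS : StarClosed 𝒢) {C : V →L[ℂ] V} (hC : InComm 𝒢 C) :
    InComm 𝒢 (ContinuousLinearMap.adjoint C) := by
  intro g hg v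
  refine ext_inner_right ℂ fun u => ?_
  calc inner ℂ (g (ContinuousLinearMap.adjoint C v)) u
      = inner ℂ (ContinuousLinearMap.adjoint C v) (ContinuousLinearMap.adjoint g u) :=
        (ContinuousLinearMap.adjoint_inner_right g _ _).symm
    _ = inner ℂ v (C (ContinuousLinearMap.adjoint g u)) :=
        ContinuousLinearMap.adjoint_inner_left C _ _
    _ = inner ℂ v (ContinuousLinearMap.adjoint g (C u)) := by rw [hC _ (hS g hg)]
    _ = inner ℂ (g v) (C u) := ContinuousLinearMap.adjoint_inner_right g _ _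
    _ = inner ℂ (ContinuousLinearMap.adjoint C (g v)) u :=
        (ContinuousLinearMap.adjoint_inner_left C _ _).symm

/-- **Schur's lemma.** -/
theorem schur (hS : StarClosed 𝒢) {W : Submodule ℂ V} (hW : Mini 𝒢 W) {C : V →L[ℂ] V}
    (hC : InComm 𝒢 C) : ∃ s : ℂ, ∀ w ∈ W, W.starProjection (C w) = s • w := by
  obtain ⟨hI, hne, hmin⟩ := hW
  have hnt : Nontrivial W := Submodule.nontrivial_iff_ne_bot.2 hne
  let f : W →ₗ[ℂ] W := (W.orthogonalProjectionOnto : V →ₗ[ℂ] W) ∘ₗ (C : V →ₗ[ℂ] V) ∘ₗ W.subtype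
  obtain ⟨s, hs⟩ := Module.End.exists_eigenvalue f
  obtain ⟨w₀, hw₀⟩ := hs.exists_hasEigenvector
  refine ⟨s, ?_⟩
  let K : Submodule ℂ V := W ⊓ LinearMap.ker
    (((W.starProjection * C - s • (1 : V →L[ℂ] V)) : V →L[ℂ] V) : V →ₗ[ℂ] V)
  have hK : ∀ v, v ∈ K ↔ v ∈ W ∧ W.starProjection (C v) = s • v := by
    intro v
    simp only [K, Submodule.mem_inf, LinearMap.mem_ker]
    refine and_congr_right fun _ => ?_
    exact sub_eq_zero
  have h1 : K = W := by
    refine hmin K ?_ inf_le_left ?_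
    · intro g hg v hv
      rw [hK] at hv ⊢
      refine ⟨hI g hg v hv.1, ?_⟩
      rw [← hC g hg, ← proj_comm hS hI g hg, hv.2, map_smul]
    · intro h0
      have h2 : (w₀ : V) ∈ K := by
        rw [hK]
        refine ⟨w₀.2, ?_⟩
        have h3 := hw₀.apply_eq_smul
        have h4 := congrArg (fun z : W => (z : V)) h3
        exact h4
      rw [h0, Submodule.mem_bot] at h2
      exact hw₀.2 (Subtype.ext h2)
  intro w hw
  rw [← h1, hK] at hw
  exact hw.2

/-- the vectors `C w` for `C` in the commutant -/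
def Us (𝒢 : Set (V →L[ℂ] V)) (w : V) : Submodule ℂ V where
  carrier := {v | ∃ C, InComm 𝒢 C ∧ v = C w}
  zero_mem' := ⟨0, fun g _ v => by simp, by simp⟩
  add_mem' := by
    rintro a b ⟨C, hC, rfl⟩ ⟨D, hD, rfl⟩
    refine ⟨C + D, fun g hg v => ?_, by simp⟩
    simp only [add_apply, map_add]
    rw [hC g hg, hD g hg]
  smul_mem' := by
    rintro c a ⟨C, hC, rfl⟩
    refine ⟨c • C, fun g hg v => ?_, by simp⟩
    simp only [smul_apply, map_smul]
    rw [hC g hg]

/-- matrix units -/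
def Units (𝒢 : Set (V →L[ℂ] V)) (m : ℕ) : Prop :=
  ∃ e : Fin m → Fin m → V →L[ℂ] V, (∀ i j, InComm 𝒢 (e i j)) ∧
    (∀ i j k l, e i j * e k l = if j = k then e i l else 0) ∧
    (∀ i j, ContinuousLinearMap.adjoint (e i j) = e j i) ∧ ∀ i, e i i ≠ 0

theorem comm_mul {C D : V →L[ℂ] V} (hC : InComm 𝒢 C) (hD : InComm 𝒢 D) : InComm 𝒢 (C * D) := by
  intro g hg v
  change g (C (D v)) = C (D (g v))
  rw [hC g hg, hD g hg]

theorem units_of {m : ℕ} (hS : StarClosed 𝒢) {W : Submodule ℂ V} (hW : Mini 𝒢 W) {w : V}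
    (hw : w ∈ W) {u : Fin m → V} (hu : Orthonormal ℂ u) (hmem : ∀ i, u i ∈ Us 𝒢 w)
    (hw1 : ‖w‖ = 1) : Units 𝒢 m := by
  choose C hC hCu using hmem
  have hQc := proj_comm hS hW.1
  have hQw : W.starProjection w = w := Submodule.starProjection_eq_self_iff.2 hw
  set Q := W.starProjection with hQ
  have hQadj : ContinuousLinearMap.adjoint Q = Q := by
    refine (ContinuousLinearMap.eq_adjoint_iff _ _).2 ?_ |>.symm
    intro x y
    exact Submodule.inner_starProjection_left_eq_right W x y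
  have hQQ : Q * Q = Q := Submodule.isIdempotentElem_starProjection W
  let D : Fin m → V →L[ℂ] V := fun i => C i * Q
  have hD : ∀ i, InComm 𝒢 (D i) := fun i => comm_mul (hC i) hQc
  have hDQ : ∀ i, D i * Q = D i := fun i => by
    change C i * Q * Q = C i * Q
    rw [mul_assoc, hQQ]
  have hQDs : ∀ i, Q * ContinuousLinearMap.adjoint (D i) = ContinuousLinearMap.adjoint (D i) := by
    intro i
    have h1 := congrArg ContinuousLinearMap.adjoint (hDQ i)
    have h2 : ContinuousLinearMap.adjoint (D i * Q) =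
        ContinuousLinearMap.adjoint Q * ContinuousLinearMap.adjoint (D i) :=
      ContinuousLinearMap.adjoint_comp _ _
    rw [h2, hQadj] at h1
    exact h1
  have hDD : ∀ i j, ContinuousLinearMap.adjoint (D i) * D j = if i = j then Q else 0 := by
    intro i j
    obtain ⟨s, hs⟩ := schur hS hW (comm_mul (comm_adjoint hS (hC i)) (hC j))
    have h2 : ContinuousLinearMap.adjoint (D i) = Q * ContinuousLinearMap.adjoint (C i) := by
      have : ContinuousLinearMap.adjoint (C i * Q) =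
        ContinuousLinearMap.adjoint Q * ContinuousLinearMap.adjoint (C i) :=
        ContinuousLinearMap.adjoint_comp _ _
      rw [hQadj] at this
      exact this
    have h3 : ∀ v, (ContinuousLinearMap.adjoint (D i) * D j) v = s • Q v := by
      intro v
      rw [h2]
      exact hs (Q v) (Submodule.starProjection_apply_mem W v)
    have h4 : s = if i = j then 1 else 0 := by
      have h5 : inner ℂ (u i) (u j) = inner ℂ w (s • w) := by
        rw [hCu i, hCu j]
        have h6 : inner ℂ (C i w) (C j w) = inner ℂ (D i w) (D j w) := by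
          change inner ℂ (C i w) (C j w) = inner ℂ (C i (Q w)) (C j (Q w))
          rw [hQw]
        rw [h6, ← ContinuousLinearMap.adjoint_inner_right]
        have h7 := h3 w
        rw [hQw] at h7
        rw [← h7]
        rfl
      rw [inner_smul_right, inner_self_eq_norm_sq_to_K, hw1] at h5
      rw [(orthonormal_iff_ite.1 hu) i j] at h5
      simpa using h5.symm
    ext v
    rw [h3, h4]
    split_ifs with h
    · simp
    · simp
  refine ⟨fun i j => D i * ContinuousLinearMap.adjoint (D j),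
    fun i j => comm_mul (hD i) (comm_adjoint hS (hD j)), ?_, ?_, ?_⟩
  · intro i j k l
    have h1 : D i * ContinuousLinearMap.adjoint (D j) * (D k * ContinuousLinearMap.adjoint (D l)) =
        D i * (ContinuousLinearMap.adjoint (D j) * D k) * ContinuousLinearMap.adjoint (D l) := by
      simp only [mul_assoc]
    rw [h1, hDD]
    split_ifs with h
    · rw [hDQ]
    · simp
  · intro i j
    have : ContinuousLinearMap.adjoint (D i * ContinuousLinearMap.adjoint (D j)) =
        ContinuousLinearMap.adjoint (ContinuousLinearMap.adjoint (D j)) *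
          ContinuousLinearMap.adjoint (D i) := ContinuousLinearMap.adjoint_comp _ _
    rw [this, ContinuousLinearMap.adjoint_adjoint]
  · intro i h0
    have h1 : D i * ContinuousLinearMap.adjoint (D i) * D i = D i := by
      rw [mul_assoc, hDD, if_pos rfl, hDQ]
    simp only at h0
    rw [h0, zero_mul] at h1
    have h2 : D i w = u i := by
      change C i (Q w) = u i
      rw [hQw, hCu i]
    rw [← h1] at h2
    have h3 := hu.1 i
    rw [← h2] at h3
    simp at h3

theorem finrank_Us {m : ℕ} (hS : StarClosed 𝒢) (hm : ¬ Units 𝒢 (m + 1)) {W : Submodule ℂ V}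
    (hW : Mini 𝒢 W) {w : V} (hw : w ∈ W) : finrank ℂ (Us 𝒢 w) ≤ m := by
  by_contra hcon
  have h1 : m + 1 ≤ finrank ℂ (Us 𝒢 w) := by omega
  set b := stdOrthonormalBasis ℂ (Us 𝒢 w) with hb
  let u : Fin (m + 1) → V := fun i => ((b (Fin.castLE h1 i) : Us 𝒢 w) : V)
  have hu : Orthonormal ℂ u := by
    have h2 := b.orthonormal.comp _ (Fin.castLE_injective h1)
    have h3 := h2.comp_linearIsometry (Us 𝒢 w).subtypeₗᵢ
    exact h3
  have hmem : ∀ i, u i ∈ Us 𝒢 w := fun i => (b (Fin.castLE h1 i)).2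
  have hw0 : w ≠ 0 := by
    rintro rfl
    obtain ⟨C, -, h3⟩ := hmem 0
    have h4 := hu.1 0
    rw [h3] at h4
    simp at h4
  have hpos : (0 : ℝ) < ‖w‖ := norm_pos_iff.2 hw0
  apply hm
  refine units_of hS hW (w := ((‖w‖⁻¹ : ℝ) : ℂ) • w) (W.smul_mem _ hw) hu (fun i => ?_) ?_
  · obtain ⟨C, hC, h3⟩ := hmem i
    refine ⟨((‖w‖ : ℝ) : ℂ) • C, fun g hg v => ?_, ?_⟩
    · simp only [smul_apply, map_smul]
      rw [hC g hg]
    · rw [h3]
      simp only [smul_apply, map_smul]
      rw [smul_smul, ← Complex.ofReal_mul, inv_mul_cancel₀ hpos.ne', Complex.ofReal_one, one_smul]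
  · rw [norm_smul, Complex.norm_real, Real.norm_eq_abs, abs_of_pos (inv_pos.2 hpos)]
    exact inv_mul_cancel₀ hpos.ne'

/-- every nonzero invariant subspace meets one of the catalogue subspaces -/
theorem meets (hS : StarClosed 𝒢) {n : ℕ} {w : Fin n → V}
    (hw : Submodule.span ℂ (Set.range w) = ⊤) {T : Submodule ℂ V} (hT : Inv 𝒢 T) (h0 : T ≠ ⊥) :
    ∃ j, ∃ v ∈ Us 𝒢 (w j), v ∈ T ∧ v ≠ 0 := by
  by_contra hcon
  push Not at hcon
  apply h0
  have h1 : ∀ j, T.starProjection (w j) = 0 := fun j =>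
    hcon j _ ⟨T.starProjection, proj_comm hS hT, rfl⟩ (Submodule.starProjection_apply_mem T _)
  have h2 : (⊤ : Submodule ℂ V) ≤ LinearMap.ker (T.starProjection : V →ₗ[ℂ] V) := by
    rw [← hw, Submodule.span_le]
    rintro _ ⟨j, rfl⟩
    exact h1 j
  rw [eq_bot_iff]
  intro t ht
  have h3 : T.starProjection t = 0 := h2 trivial
  rw [Submodule.starProjection_eq_self_iff.2 ht] at h3
  exact (Submodule.mem_bot ℂ).2 h3

end Pool.Agent.TH269.GS
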