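import Mathlib
import Pool.Agent.TH269.GS.Abs
import Pool.Agent.TH269.SV.Main

/-! Verifiers with symmetries: classical witnesses. -/

set_option autoImplicit false

open scoped ComplexOrder Matrix
open Pool.Agent.W996.MW Finset

namespace Pool.Agent.TH269.GS

open Pool.Agent.TH269.SV (gv gv_near gv_mem NN accept_near normSq_eq_norm)

variable {ι : Type} [Fintype ι] [DecidableEq ι]

/-- `E` commutes with all matrices of `𝒢`. -/
def Commutes (𝒢 : Set (Matrix ι ι ℂ)) (E : Matrix ι ι ℂ) : Prop := ∀ g ∈ 𝒢, g * E = E * g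

/-- Some irreducible representation occurs at least `m` times: there are `m × m` matrix units
(nonzero, compatible with adjoints) which commute with all matrices of `𝒢`. -/
def HasUnits (𝒢 : Set (Matrix ι ι ℂ)) (m : ℕ) : Prop :=
  ∃ e : Fin m → Fin m → Matrix ι ι ℂ, (∀ i j, Commutes 𝒢 (e i j)) ∧
    (∀ i j k l, e i j * e k l = if j = k then e i l else 0) ∧
    (∀ i j, (e i j)ᴴ = e j i) ∧ ∀ i, e i i ≠ 0

/-- the operator of a matrix -/
noncomputable abbrev T : Matrix ι ι ℂ ≃⋆ₐ[ℂ] (EuclideanSpace ℂ ι →L[ℂ] EuclideanSpace ℂ ι) :=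
  Matrix.toEuclideanCLM (n := ι) (𝕜 := ℂ)

/-- the set of operators -/
def ops (𝒢 : Set (Matrix ι ι ℂ)) : Set (EuclideanSpace ℂ ι →L[ℂ] EuclideanSpace ℂ ι) :=
  {A | ∃ g ∈ 𝒢, T g = A}

variable {𝒢 : Set (Matrix ι ι ℂ)}

theorem adj_T (A : Matrix ι ι ℂ) : ContinuousLinearMap.adjoint (T A) = T (Aᴴ) := by
  rw [← ContinuousLinearMap.star_eq_adjoint, ← map_star]
  rfl

theorem T_inj {A B : Matrix ι ι ℂ} (h : T A = T B) : A = B := T.injective h

theorem starClosed (hS : ∀ g ∈ 𝒢, gᴴ ∈ 𝒢) : StarClosed (ops 𝒢) := by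
  rintro _ ⟨g, hg, rfl⟩
  exact ⟨gᴴ, hS g hg, (adj_T g).symm⟩

theorem T_apply_mul (A B : Matrix ι ι ℂ) (v : EuclideanSpace ℂ ι) :
    T A (T B v) = T (A * B) v := by
  rw [map_mul]
  rfl

theorem inComm_iff (C : Matrix ι ι ℂ) : InComm (ops 𝒢) (T C) ↔ Commutes 𝒢 C := by
  constructor
  · intro h g hg
    apply T.injective
    ext1 v
    have h1 := h (T g) ⟨g, hg, rfl⟩ v
    rw [T_apply_mul, T_apply_mul] at h1
    exact h1
  · rintro h _ ⟨g, hg, rfl⟩ v
    rw [T_apply_mul, T_apply_mul, h g hg]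

theorem hasUnits_of {m : ℕ} (h : Units (ops 𝒢) m) : HasUnits 𝒢 m := by
  obtain ⟨e, h1, h2, h3, h4⟩ := h
  have hT : ∀ A : EuclideanSpace ℂ ι →L[ℂ] EuclideanSpace ℂ ι, T (T.symm A) = A :=
    fun A => T.apply_symm_apply A
  refine ⟨fun i j => T.symm (e i j), ?_, ?_, ?_, ?_⟩
  · intro i j
    rw [← inComm_iff, hT]
    exact h1 i j
  · intro i j k l
    apply T_inj
    simp only
    rw [map_mul, hT, hT, h2]
    split_ifs with h
    · rw [hT]
    · rw [map_zero]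
  · intro i j
    apply T_inj
    rw [← adj_T, hT, hT, h3]
  · intro i h0
    apply h4 i
    rw [← hT (e i i)]
    simp only at h0
    rw [h0, map_zero]

theorem hasUnits_one [Nonempty ι] : HasUnits 𝒢 1 := by
  refine ⟨fun _ _ => 1, fun _ _ g _ => by simp, fun i j k l => ?_, fun _ _ => by simp,
    fun _ => one_ne_zero⟩
  rw [if_pos (Subsingleton.elim _ _), mul_one]

/-- labels -/
abbrev Lab (ι : Type) [Fintype ι] (m N : ℕ) : Type :=
  Fin (Module.finrank ℂ (EuclideanSpace ℂ ι)) × (Fin m → Fin (2 * N + 1) × Fin (2 * N + 1))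

/-- an eigenvector to the largest eigenvalue in the catalogue -/
theorem exists_opt [Nonempty ι] (hS : ∀ g ∈ 𝒢, gᴴ ∈ 𝒢) {n : ℕ}
    {w : Fin n → EuclideanSpace ℂ ι} (hw : Submodule.span ℂ (Set.range w) = ⊤)
    {E : Matrix ι ι ℂ} (hE : E.PosSemidef) (hC : Commutes 𝒢 E) :
    ∃ j, ∃ v ∈ Us (ops 𝒢) (w j), ‖v‖ = 1 ∧ ∃ l : ℝ, 0 ≤ l ∧
      E *ᵥ (fun i => v i) = (l : ℂ) • (fun i => v i) ∧
      ∀ φ : ι → ℂ, normSq φ = 1 → accept E φ ≤ l := by
  obtain ⟨v₀, hv₀, hmax⟩ := Pool.Agent.TH269.SV.exists_max E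
  set s : ℝ := accept E v₀ with hs
  set B : Matrix ι ι ℂ := (s : ℂ) • 1 - E with hBdef
  have hB : B.PosSemidef := psd_of_accept hE hmax
  have hv0 : v₀ ≠ 0 := by
    rintro rfl
    simp [normSq] at hv₀
  have hBv : B *ᵥ v₀ = 0 := by
    rw [← hB.dotProduct_mulVec_zero_iff]
    have h1 : accept B v₀ = 0 := by
      rw [hBdef, accept_sub, accept_smul, accept_one, hv₀]
      simp [hs]
    have h2 : (star v₀ ⬝ᵥ B *ᵥ v₀).im = 0 := by
      have := hB.isHermitian.im_star_dotProduct_mulVec_self v₀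
      simpa using this
    exact Complex.ext h1 h2
  have hBC : Commutes 𝒢 B := by
    intro g hg
    rw [hBdef, mul_sub, sub_mul, hC g hg]
    simp
  let K : Submodule ℂ (EuclideanSpace ℂ ι) :=
    LinearMap.ker ((T B : EuclideanSpace ℂ ι →L[ℂ] EuclideanSpace ℂ ι) :
      EuclideanSpace ℂ ι →ₗ[ℂ] EuclideanSpace ℂ ι)
  have hK : ∀ v, v ∈ K ↔ T B v = 0 := fun v => LinearMap.mem_ker
  have hKinv : Inv (ops 𝒢) K := by
    rintro _ ⟨g, hg, rfl⟩ v hv
    rw [hK] at hv ⊢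
    rw [T_apply_mul, ← hBC g hg, ← T_apply_mul, hv, map_zero]
  have hK0 : K ≠ ⊥ := by
    intro h0
    have h1 : (WithLp.toLp 2 v₀ : EuclideanSpace ℂ ι) ∈ K := by
      rw [hK]
      have h2 : T B (WithLp.toLp 2 v₀) = WithLp.toLp 2 (B *ᵥ v₀) := rfl
      rw [h2, hBv]
      rfl
    rw [h0, Submodule.mem_bot] at h1
    apply hv0
    have h2 := congrArg (fun z : EuclideanSpace ℂ ι => (fun i => z i)) h1
    exact h2
  obtain ⟨j, v, hv, hvK, hvne⟩ := meets (starClosed hS) hw hKinv hK0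
  have hpos : 0 < ‖v‖ := norm_pos_iff.2 hvne
  have hvK' : (((‖v‖⁻¹ : ℝ) : ℂ) • v) ∈ K := K.smul_mem _ hvK
  refine ⟨j, ((‖v‖⁻¹ : ℝ) : ℂ) • v, Submodule.smul_mem _ _ hv, ?_, s,
    accept_nonneg hE v₀, ?_, hmax⟩
  · rw [norm_smul, Complex.norm_real, Real.norm_eq_abs, abs_of_pos (inv_pos.2 hpos)]
    exact inv_mul_cancel₀ hpos.ne'
  · set u := ((‖v‖⁻¹ : ℝ) : ℂ) • v with hu
    rw [hK] at hvK'
    have h1 : B *ᵥ (fun i => u i) = 0 := by
      have h2 := congrArg (fun z : EuclideanSpace ℂ ι => (fun i => z i)) hvK'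
      exact h2
    rw [hBdef, Matrix.sub_mulVec, Matrix.smul_mulVec, Matrix.one_mulVec] at h1
    exact (sub_eq_zero.1 h1).symm

/-- **The family contains an almost optimal witness.** -/
theorem fam_exists [Nonempty ι] (hS : ∀ g ∈ 𝒢, gᴴ ∈ 𝒢) {m : ℕ} (hm : ¬ HasUnits 𝒢 (m + 1))
    {ε : ℝ} (hε : 0 < ε) (hε1 : ε < 1) :
    ∃ F : Lab ι m (NN m ε) → ι → ℂ, (∀ q, normSq (F q) = 1) ∧
      ∀ E : Matrix ι ι ℂ, IsEffect E → Commutes 𝒢 E → ∀ φ : ι → ℂ, normSq φ = 1 →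
        ∃ q, (1 - ε) * accept E φ ≤ accept E (F q) := by
  classical
  have hm1 : 1 ≤ m := by
    by_contra h
    have h0 : m = 0 := by omega
    subst h0
    exact hm hasUnits_one
  have hmu : ¬ Units (ops 𝒢) (m + 1) := fun h => hm (hasUnits_of h)
  obtain ⟨w, hw1, hw⟩ := exists_family (starClosed hS)
  let i₀ : ι := Classical.arbitrary ι
  let F : Lab ι m (NN m ε) → ι → ℂ := fun q =>
    if gv (Us (ops 𝒢) (w q.1)) m (NN m ε) q.2 = 0 then (fun i => if i = i₀ then 1 else 0)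
    else fun p => ((‖gv (Us (ops 𝒢) (w q.1)) m (NN m ε) q.2‖⁻¹ : ℝ) : ℂ) *
      gv (Us (ops 𝒢) (w q.1)) m (NN m ε) q.2 p
  refine ⟨F, ?_, ?_⟩
  · intro q
    simp only [F]
    split_ifs with h1
    · simp [normSq, apply_ite]
    · set u := gv (Us (ops 𝒢) (w q.1)) m (NN m ε) q.2 with hu
      have h2 : 0 < ‖u‖ := norm_pos_iff.2 h1
      have h3 : normSq (fun p => ((‖u‖⁻¹ : ℝ) : ℂ) * u p) = (‖u‖⁻¹) ^ 2 * normSq (fun p => u p) := by
        rw [← normSq_smul]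
        rfl
      rw [h3, normSq_eq_norm, inv_pow]
      exact inv_mul_cancel₀ (by positivity)
  · intro E hE hC φ hφ
    obtain ⟨j, v, hvU, hv1, l, hl, hEv, hmax⟩ := exists_opt hS hw hE.1 hC
    obtain ⟨W, hW, hwW⟩ := hw1 j
    have hfin := finrank_Us (starClosed hS) hmu hW hwW
    have hMpos : (0 : ℝ) < m := by exact_mod_cast hm1
    have hN0 : (2 * m / ε : ℝ) ≤ NN m ε := Nat.le_ceil _
    have hNpos : (0 : ℝ) < NN m ε := lt_of_lt_of_le (by positivity) hN0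
    have hN : 1 ≤ NN m ε := by exact_mod_cast hNpos
    obtain ⟨z, hz⟩ := gv_near (Us (ops 𝒢) (w j)) hN hfin hvU hv1
    have hz' : ‖v - gv (Us (ops 𝒢) (w j)) m (NN m ε) z‖ ^ 2 ≤ ε := by
      refine hz.trans ?_
      rw [div_le_iff₀ (by positivity)]
      have h1 : (1 : ℝ) ≤ NN m ε := by exact_mod_cast hN
      have h2 : (2 * m : ℝ) ≤ ε * NN m ε := by
        rw [div_le_iff₀ hε] at hN0
        linarith
      nlinarith [mul_nonneg hε.le (mul_nonneg hNpos.le (sub_nonneg.2 h1))]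
    obtain ⟨h1, h2⟩ := accept_near hE.1 hv1 hl hEv hε1 hz'
    refine ⟨(j, z), ?_⟩
    have h3 : F (j, z) = fun p => ((‖gv (Us (ops 𝒢) (w j)) m (NN m ε) z‖⁻¹ : ℝ) : ℂ) *
        gv (Us (ops 𝒢) (w j)) m (NN m ε) z p := by
      simp only [F]
      rw [if_neg h1]
    rw [h3]
    refine le_trans ?_ h2
    exact mul_le_mul_of_nonneg_left (hmax φ hφ) (by linarith)

theorem card_lab {m : ℕ} (hm : 1 ≤ m) {ε : ℝ} (hε : 0 < ε) (hε1 : ε < 1) :
    (Fintype.card (Lab ι m (NN m ε)) : ℝ) ≤ Fintype.card ι * (7 * m / ε) ^ (2 * m) := by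
  have hM1 : (1 : ℝ) ≤ m := by exact_mod_cast hm
  have hMe : (m : ℝ) ≤ m / ε := by
    rw [le_div_iff₀ hε]
    nlinarith
  have hN : (NN m ε : ℝ) ≤ 2 * m / ε + 1 := (Nat.ceil_lt_add_one (by positivity)).le
  have hG : (2 * (NN m ε : ℝ) + 1) ≤ 7 * m / ε := by
    have h1 : (2 : ℝ) * m / ε = 2 * (m / ε) := by ring
    have h2 : (7 : ℝ) * m / ε = 7 * (m / ε) := by ring
    rw [h1] at hN
    rw [h2]
    linarith
  rw [Fintype.card_prod, Fintype.card_fun, Fintype.card_prod, Fintype.card_fin,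
    Fintype.card_fin, Fintype.card_fin, finrank_euclideanSpace]
  push_cast
  have h2 : ((2 * (NN m ε : ℝ) + 1) * (2 * (NN m ε : ℝ) + 1)) ^ m ≤ (7 * m / ε) ^ (2 * m) := by
    rw [← pow_two, ← pow_mul]
    exact pow_le_pow_left₀ (by positivity) hG _
  gcongr

/-- **Classical witnesses of `L` bits suffice.** -/
theorem upper [Nonempty ι] (hS : ∀ g ∈ 𝒢, gᴴ ∈ 𝒢) {m : ℕ} (hm : ¬ HasUnits 𝒢 (m + 1))
    {ε : ℝ} (hε : 0 < ε) (hε1 : ε < 1) (L : ℕ)
    (hL : Real.logb 2 (Fintype.card ι) + 2 * m * Real.logb 2 (7 * m / ε) ≤ L) :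
    ∃ F : (Fin L → Bool) → ι → ℂ, (∀ y, normSq (F y) = 1) ∧
      ∀ E : Matrix ι ι ℂ, IsEffect E → Commutes 𝒢 E → ∀ φ : ι → ℂ, normSq φ = 1 →
        ∃ y, (1 - ε) * accept E φ ≤ accept E (F y) := by
  classical
  have hm1 : 1 ≤ m := by
    by_contra h
    have h0 : m = 0 := by omega
    subst h0
    exact hm hasUnits_one
  have hMpos : (0 : ℝ) < m := by exact_mod_cast hm1
  have hNpos : (0 : ℝ) < Fintype.card ι := by exact_mod_cast Fintype.card_pos
  have hcard : Fintype.card (Lab ι m (NN m ε)) ≤ Fintype.card (Fin L → Bool) := by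
    have h1 := card_lab (ι := ι) hm1 hε hε1
    have h2 : (Fintype.card ι * (7 * m / ε) ^ (2 * m) : ℝ) ≤ 2 ^ L := by
      have h3 : (0 : ℝ) < 7 * m / ε := by positivity
      have h4 : ((7 * m / ε) ^ (2 * m) : ℝ) = 2 ^ (2 * m * Real.logb 2 (7 * m / ε) : ℝ) := by
        have h5 : (2 * m * Real.logb 2 (7 * m / ε) : ℝ) =
            Real.logb 2 (7 * m / ε) * ((2 * m : ℕ) : ℝ) := by
          push_cast
          ring
        rw [h5, Real.rpow_mul (by norm_num), Real.rpow_logb (by norm_num) (by norm_num) h3,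
          Real.rpow_natCast]
      have h6 : (Fintype.card ι : ℝ) = 2 ^ (Real.logb 2 (Fintype.card ι)) :=
        (Real.rpow_logb (by norm_num) (by norm_num) hNpos).symm
      rw [h4]
      calc (Fintype.card ι : ℝ) * 2 ^ (2 * m * Real.logb 2 (7 * m / ε) : ℝ)
          = 2 ^ (Real.logb 2 (Fintype.card ι)) * 2 ^ (2 * m * Real.logb 2 (7 * m / ε) : ℝ) := by
            rw [← h6]
        _ = 2 ^ (Real.logb 2 (Fintype.card ι) + 2 * m * Real.logb 2 (7 * m / ε) : ℝ) := by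
            rw [Real.rpow_add (by norm_num)]
        _ ≤ 2 ^ (L : ℝ) := Real.rpow_le_rpow_of_exponent_le (by norm_num) hL
        _ = 2 ^ L := Real.rpow_natCast 2 L
    have h5 : ((Fintype.card (Lab ι m (NN m ε)) : ℕ) : ℝ) ≤
        ((Fintype.card (Fin L → Bool) : ℕ) : ℝ) := by
      rw [Fintype.card_fun (α := Fin L) (β := Bool), Fintype.card_bool, Fintype.card_fin]
      push_cast
      exact h1.trans h2
    exact_mod_cast h5
  obtain ⟨e⟩ := Function.Embedding.nonempty_of_card_le hcard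
  have hne : Nonempty (Lab ι m (NN m ε)) := by
    have h1 : 0 < Module.finrank ℂ (EuclideanSpace ℂ ι) := by
      rw [finrank_euclideanSpace]
      exact Fintype.card_pos
    exact ⟨(⟨0, h1⟩, fun _ => (0, 0))⟩
  obtain ⟨F, hF, hopt⟩ := fam_exists hS hm hε hε1
  refine ⟨fun y => F (Function.invFun e y), fun y => hF _, fun E hE hC φ hφ => ?_⟩
  obtain ⟨q, hq⟩ := hopt E hE hC φ hφ
  refine ⟨e q, ?_⟩
  simp only
  rw [Function.leftInverse_invFun e.injective q]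
  exact hq

end Pool.Agent.TH269.GS
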