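import Mathlib
import Pool.Agent.TH269.GS.Up

/-! Verifiers with symmetries: small families do not suffice. -/

set_option autoImplicit false

open scoped ComplexOrder Matrix
open Pool.Agent.W996.MW Finset

namespace Pool.Agent.TH269.GS

open Pool.Agent.TH269.SV (star_dot_self star_dot_comm normSq_unit abs_dot_le)

variable {ι : Type} [Fintype ι] [DecidableEq ι] {𝒢 : Set (Matrix ι ι ℂ)}

theorem commutes_mul {A B : Matrix ι ι ℂ} (hA : Commutes 𝒢 A) (hB : Commutes 𝒢 B) :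
    Commutes 𝒢 (A * B) := fun g hg => by
  rw [← mul_assoc, hA g hg, mul_assoc, hB g hg, mul_assoc]

theorem commutes_sum {κ : Type} (s : Finset κ) (f : κ → Matrix ι ι ℂ)
    (h : ∀ k ∈ s, Commutes 𝒢 (f k)) : Commutes 𝒢 (∑ k ∈ s, f k) := fun g hg => by
  rw [mul_sum, sum_mul]
  exact sum_congr rfl fun k hk => h k hk g hg

theorem commutes_smul (c : ℂ) {A : Matrix ι ι ℂ} (hA : Commutes 𝒢 A) : Commutes 𝒢 (c • A) :=
  fun g hg => by rw [mul_smul_comm, smul_mul_assoc, hA g hg]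

/-- `1 - A` is positive for a projection `A` -/
theorem psd_one_sub {A : Matrix ι ι ℂ} (h1 : Aᴴ = A) (h2 : A * A = A) :
    ((1 : Matrix ι ι ℂ) - A).PosSemidef := by
  have h3 : (1 : Matrix ι ι ℂ) - A = (1 - A)ᴴ * (1 - A) := by
    rw [Matrix.conjTranspose_sub, Matrix.conjTranspose_one, h1, mul_sub, sub_mul, sub_mul, h2]
    simp
  rw [h3]
  exact Matrix.posSemidef_conjTranspose_mul_self _

theorem accept_gram (R : Matrix ι ι ℂ) (φ : ι → ℂ) : accept (Rᴴ * R) φ = normSq (R *ᵥ φ) := by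
  unfold accept
  have h1 : star φ ⬝ᵥ (Rᴴ * R) *ᵥ φ = star (R *ᵥ φ) ⬝ᵥ (R *ᵥ φ) := by
    rw [← Matrix.mulVec_mulVec, Matrix.dotProduct_mulVec, Matrix.star_mulVec]
  rw [h1, star_dot_self, Complex.ofReal_re]

variable {m : ℕ}

section units

variable {e : Fin m → Fin m → Matrix ι ι ℂ}
  (h2 : ∀ i j k l, e i j * e k l = if j = k then e i l else 0)
  (h3 : ∀ i j, (e i j)ᴴ = e j i) (h4 : ∀ i, e i i ≠ 0) (a : Fin m)

/-- the partial isometry of the state `ψ` -/
noncomputable def R (e : Fin m → Fin m → Matrix ι ι ℂ) (a : Fin m) (ψ : Fin m → ℂ) :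
    Matrix ι ι ℂ := ∑ j, star (ψ j) • e a j

include h3 in
theorem R_adj (ψ : Fin m → ℂ) : (R e a ψ)ᴴ = ∑ j, ψ j • e j a := by
  unfold R
  rw [Matrix.conjTranspose_sum]
  refine sum_congr rfl fun j _ => ?_
  rw [Matrix.conjTranspose_smul, star_star, h3]

include h2 h3 in
theorem R_R_adj {ψ : Fin m → ℂ} (hψ : normSq ψ = 1) : R e a ψ * (R e a ψ)ᴴ = e a a := by
  rw [R_adj h3]
  unfold R
  rw [sum_mul]
  have h5 : ∀ j, star (ψ j) • e a j * ∑ k, ψ k • e k a = (star (ψ j) * ψ j) • e a a := by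
    intro j
    rw [mul_sum, sum_eq_single j]
    · rw [smul_mul_assoc, mul_smul_comm, h2, if_pos rfl, smul_smul]
    · intro k _ hk
      rw [smul_mul_assoc, mul_smul_comm, h2, if_neg (Ne.symm hk)]
      simp
    · simp
  rw [sum_congr rfl fun j _ => h5 j, ← sum_smul]
  have h6 : ∑ j, star (ψ j) * ψ j = star ψ ⬝ᵥ ψ := rfl
  rw [h6, star_dot_self, hψ]
  simp

include h2 in
theorem e_mul_R (ψ : Fin m → ℂ) : e a a * R e a ψ = R e a ψ := by
  unfold R
  rw [mul_sum]
  refine sum_congr rfl fun j _ => ?_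
  rw [mul_smul_comm, h2, if_pos rfl]

/-- the projection of the state `ψ` -/
noncomputable def P (e : Fin m → Fin m → Matrix ι ι ℂ) (a : Fin m) (ψ : Fin m → ℂ) :
    Matrix ι ι ℂ := (R e a ψ)ᴴ * R e a ψ

include h2 h3 in
theorem effect_P {ψ : Fin m → ℂ} (hψ : normSq ψ = 1) : IsEffect (P e a ψ) := by
  refine ⟨Matrix.posSemidef_conjTranspose_mul_self _, psd_one_sub ?_ ?_⟩
  · unfold P
    rw [Matrix.conjTranspose_mul, Matrix.conjTranspose_conjTranspose]
  · unfold P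
    rw [mul_assoc, ← mul_assoc (R e a ψ), R_R_adj h2 h3 a hψ, e_mul_R h2]

include h3 in
theorem comm_P (h1 : ∀ i j, Commutes 𝒢 (e i j)) (ψ : Fin m → ℂ) : Commutes 𝒢 (P e a ψ) := by
  unfold P
  refine commutes_mul ?_ ?_
  · rw [R_adj h3]
    exact commutes_sum _ _ fun j _ => commutes_smul _ (h1 _ _)
  · unfold R
    exact commutes_sum _ _ fun j _ => commutes_smul _ (h1 _ _)

include h2 h3 h4 in
theorem accept_P_one {ψ : Fin m → ℂ} (hψ : normSq ψ = 1) :
    ∃ φ : ι → ℂ, normSq φ = 1 ∧ accept (P e a ψ) φ = 1 := by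
  obtain ⟨x, hx⟩ : ∃ x : ι → ℂ, e a a *ᵥ x ≠ 0 := by
    by_contra hcon
    push Not at hcon
    apply h4 a
    exact Matrix.ext_of_mulVec_single fun i => by rw [hcon, Matrix.zero_mulVec]
  have hpos : 0 < normSq (e a a *ᵥ x) := by
    refine lt_of_le_of_ne (normSq_nonneg _) fun h0 => hx ?_
    funext p
    have h5 : ‖(e a a *ᵥ x) p‖ ^ 2 ≤ normSq (e a a *ᵥ x) :=
      Finset.single_le_sum (f := fun i => ‖(e a a *ᵥ x) i‖ ^ 2) (fun _ _ => by positivity)
        (Finset.mem_univ p)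
    have h6 : ‖(e a a *ᵥ x) p‖ ^ 2 = 0 := le_antisymm (h5.trans h0.symm.le) (by positivity)
    simpa using h6
  set v : ι → ℂ := (R e a ψ)ᴴ *ᵥ x with hv
  have hRv : R e a ψ *ᵥ v = e a a *ᵥ x := by
    rw [hv, Matrix.mulVec_mulVec, R_R_adj h2 h3 a hψ]
  have hnv : normSq v = normSq (e a a *ᵥ x) := by
    have h5 := accept_gram ((R e a ψ)ᴴ) x
    have h6 := accept_gram (e a a) x
    rw [Matrix.conjTranspose_conjTranspose, R_R_adj h2 h3 a hψ] at h5
    rw [h3, h2, if_pos rfl] at h6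
    rw [hv, ← h5, ← h6]
  refine ⟨((Real.sqrt (normSq v))⁻¹ : ℝ) • v, normSq_unit (by rw [hnv]; exact hpos), ?_⟩
  have h7 : (((Real.sqrt (normSq v))⁻¹ : ℝ) • v) = (((Real.sqrt (normSq v))⁻¹ : ℝ) : ℂ) • v := by
    funext i
    simp
  rw [h7, accept_smul_vec, P, accept_gram, hRv, ← hnv, inv_pow, Real.sq_sqrt (normSq_nonneg v)]
  exact inv_mul_cancel₀ (by rw [hnv]; exact hpos.ne')

include h2 h3 in
theorem sum_normSq_le {φ : ι → ℂ} (hφ : normSq φ = 1) : ∑ j, normSq (e a j *ᵥ φ) ≤ 1 := by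
  set S : Matrix ι ι ℂ := ∑ j, e j j with hS
  have hSS : S * S = S := by
    rw [hS, sum_mul]
    refine sum_congr rfl fun j _ => ?_
    rw [mul_sum, sum_eq_single j]
    · rw [h2, if_pos rfl]
    · intro k _ hk
      rw [h2, if_neg (Ne.symm hk)]
    · simp
  have hSH : Sᴴ = S := by
    rw [hS, Matrix.conjTranspose_sum]
    exact sum_congr rfl fun j _ => h3 j j
  have h5 := accept_nonneg (psd_one_sub hSH hSS) φ
  rw [accept_sub, accept_one, hφ] at h5
  have h6 : accept S φ = ∑ j, normSq (e a j *ᵥ φ) := by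
    have h7 : ∀ j, normSq (e a j *ᵥ φ) = accept (e j j) φ := by
      intro j
      rw [← accept_gram, h3, h2, if_pos rfl]
    rw [sum_congr rfl fun j _ => h7 j]
    unfold accept
    rw [hS, Matrix.sum_mulVec, dotProduct_sum, Complex.re_sum]
  rw [← h6]
  linarith

end units

/-- **Small families do not suffice.** -/
theorem low {κ : Type} [Fintype κ] (hm : 1 ≤ m) (h : HasUnits 𝒢 m) (F : κ → ι → ℂ)
    (hF : ∀ y, normSq (F y) = 1) :
    ∃ E : Matrix ι ι ℂ, IsEffect E ∧ Commutes 𝒢 E ∧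
      (∃ ψ : ι → ℂ, normSq ψ = 1 ∧ accept E ψ = 1) ∧
      ∀ y, accept E (F y) ≤
        2 * Real.log (4 * ((Fintype.card κ * Fintype.card ι : ℕ) : ℝ) + 1) / m := by
  classical
  obtain ⟨e, h1, h2, h3, h4⟩ := h
  let a : Fin m := ⟨0, hm⟩
  have hne : Nonempty (Fin m) := ⟨a⟩
  let r : κ × ι → Fin m → ℂ := fun p j => (e a j *ᵥ F p.1) p.2
  let G' : κ × ι → Fin m → ℂ := fun p =>
    if 0 < normSq (r p) then ((Real.sqrt (normSq (r p)))⁻¹ : ℝ) • r p
    else fun j => if j = a then 1 else 0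
  have hG' : ∀ p, normSq (G' p) = 1 := by
    intro p
    simp only [G']
    split_ifs with h
    · exact normSq_unit h
    · simp [normSq, apply_ite]
  let ee := Fintype.equivFin (κ × ι)
  obtain ⟨ψ, hψ, hov⟩ := Pool.Agent.W346.MW.fam (Fin m) (Fintype.card (κ × ι))
    (fun k => G' (ee.symm k)) (fun k => hG' _)
  rw [Fintype.card_fin] at hov
  set B : ℝ := 2 * Real.log (4 * ((Fintype.card κ * Fintype.card ι : ℕ) : ℝ) + 1) / m with hB
  have hB0 : 0 ≤ B := by
    rw [hB]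
    refine div_nonneg (mul_nonneg (by norm_num) (Real.log_nonneg ?_)) (Nat.cast_nonneg m)
    have : (0 : ℝ) ≤ ((Fintype.card κ * Fintype.card ι : ℕ) : ℝ) := Nat.cast_nonneg _
    linarith
  have hr : ∀ p, ‖star (r p) ⬝ᵥ ψ‖ ^ 2 ≤ normSq (r p) * B := by
    intro p
    have h5 := hov (ee p)
    rw [Equiv.symm_apply_apply, Fintype.card_prod] at h5
    by_cases h6 : 0 < normSq (r p)
    · have h7 : G' p = ((Real.sqrt (normSq (r p)))⁻¹ : ℝ) • r p := by
        simp only [G']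
        rw [if_pos h6]
      have h8 : star (((Real.sqrt (normSq (r p)))⁻¹ : ℝ) • r p) ⬝ᵥ ψ =
          (((Real.sqrt (normSq (r p)))⁻¹ : ℝ) : ℂ) * (star (r p) ⬝ᵥ ψ) := by
        simp only [dotProduct, Pi.star_apply, Pi.smul_apply, Complex.real_smul, star_mul',
          Complex.star_def, Complex.conj_ofReal]
        rw [mul_sum]
        exact sum_congr rfl fun i _ => by ring
      rw [h7, h8, norm_mul, mul_pow, Complex.norm_real, Real.norm_eq_abs, sq_abs, inv_pow,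
        Real.sq_sqrt h6.le] at h5
      calc ‖star (r p) ⬝ᵥ ψ‖ ^ 2 = normSq (r p) * ((normSq (r p))⁻¹ * ‖star (r p) ⬝ᵥ ψ‖ ^ 2) := by
            rw [← mul_assoc, mul_inv_cancel₀ h6.ne', one_mul]
        _ ≤ normSq (r p) * B := mul_le_mul_of_nonneg_left h5 h6.le
    · have h7 : normSq (r p) = 0 := le_antisymm (not_lt.1 h6) (normSq_nonneg _)
      have h8 : r p = 0 := by
        funext j
        have h9 : ‖r p j‖ ^ 2 ≤ normSq (r p) :=
          Finset.single_le_sum (f := fun i => ‖r p i‖ ^ 2) (fun _ _ => by positivity)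
            (Finset.mem_univ j)
        rw [h7] at h9
        have h10 : ‖r p j‖ ^ 2 = 0 := le_antisymm h9 (by positivity)
        simpa using h10
      rw [h7, h8]
      simp
  refine ⟨P e a ψ, effect_P h2 h3 a hψ, comm_P h3 a h1 ψ, accept_P_one h2 h3 h4 a hψ,
    fun y => ?_⟩
  have h5 : accept (P e a ψ) (F y) = ∑ b, ‖star (r (y, b)) ⬝ᵥ ψ‖ ^ 2 := by
    rw [P, accept_gram]
    unfold normSq
    refine sum_congr rfl fun b _ => ?_
    congr 1
    have h6 : (R e a ψ *ᵥ F y) b = star ψ ⬝ᵥ r (y, b) := by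
      unfold R
      rw [Matrix.sum_mulVec, Finset.sum_apply]
      simp only [dotProduct, Pi.star_apply]
      refine sum_congr rfl fun j _ => ?_
      rw [Matrix.smul_mulVec, Pi.smul_apply, smul_eq_mul]
    rw [h6, star_dot_comm (r (y, b)) ψ, norm_star]
  rw [h5]
  calc ∑ b, ‖star (r (y, b)) ⬝ᵥ ψ‖ ^ 2 ≤ ∑ b, normSq (r (y, b)) * B :=
        sum_le_sum fun b _ => hr (y, b)
    _ = (∑ b, normSq (r (y, b))) * B := by rw [sum_mul]
    _ = (∑ j, normSq (e a j *ᵥ F y)) * B := by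
        congr 1
        unfold normSq
        rw [sum_comm]
    _ ≤ 1 * B := mul_le_mul_of_nonneg_right (sum_normSq_le h2 h3 a (hF y)) hB0
    _ = B := one_mul B

/-- **Lower bound for classical witnesses of `L` bits.** -/
theorem lower [Nonempty ι] (hm : 1 ≤ m) (h : HasUnits 𝒢 m) (L : ℕ)
    (F : (Fin L → Bool) → ι → ℂ) (hF : ∀ y, normSq (F y) = 1) :
    ∃ E : Matrix ι ι ℂ, IsEffect E ∧ Commutes 𝒢 E ∧
      (∃ ψ : ι → ℂ, normSq ψ = 1 ∧ accept E ψ = 1) ∧
      ∀ y, accept E (F y) ≤ 3 / 2 * (L + Real.logb 2 (Fintype.card ι) + 3) / m := by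
  obtain ⟨E, hE, hC, hψ, hj⟩ := low hm h F hF
  refine ⟨E, hE, hC, hψ, fun y => ?_⟩
  refine (hj y).trans ?_
  have hN1 : (1 : ℝ) ≤ Fintype.card ι := by exact_mod_cast Fintype.card_pos (α := ι)
  have hNpos : (0 : ℝ) < Fintype.card ι := by linarith
  set x : ℝ := L + Real.logb 2 (Fintype.card ι) + 3 with hx
  have hl0 : 0 ≤ Real.logb 2 (Fintype.card ι) := Real.logb_nonneg (by norm_num) hN1
  have hx0 : 0 ≤ x := by positivity
  have h2 : Real.log (4 * ((Fintype.card (Fin L → Bool) * Fintype.card ι : ℕ) : ℝ) + 1) ≤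
      3 / 4 * x := by
    rw [Fintype.card_fun, Fintype.card_bool, Fintype.card_fin]
    have h3 : (4 * ((2 ^ L * Fintype.card ι : ℕ) : ℝ) + 1) ≤ 2 ^ (L + 3) * Fintype.card ι := by
      push_cast
      rw [pow_add]
      have h4 : (1 : ℝ) ≤ 2 ^ L := one_le_pow₀ (by norm_num)
      nlinarith [mul_le_mul h4 hN1 (by norm_num) (by linarith)]
    have h4 : Real.log (4 * ((2 ^ L * Fintype.card ι : ℕ) : ℝ) + 1) ≤
        Real.log (2 ^ (L + 3) * Fintype.card ι) := Real.log_le_log (by positivity) h3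
    rw [Real.log_mul (by positivity) hNpos.ne', Real.log_pow] at h4
    have h5 := Real.log_two_lt_d9
    have h7 : Real.log (Fintype.card ι) = Real.logb 2 (Fintype.card ι) * Real.log 2 := by
      unfold Real.logb
      field_simp
    have h8 : ((L + 3 : ℕ) : ℝ) * Real.log 2 + Real.log (Fintype.card ι) = Real.log 2 * x := by
      rw [h7, hx]
      push_cast
      ring
    rw [h8] at h4
    refine h4.trans ?_
    exact mul_le_mul_of_nonneg_right (by linarith) hx0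
  have h6 : (0 : ℝ) ≤ m := Nat.cast_nonneg _
  refine div_le_div_of_nonneg_right ?_ h6
  linarith

end Pool.Agent.TH269.GS
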