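import Mathlib
import Pool.Agent.TH269.GS.Lo

/-! Verifiers with symmetries: arbitrary sets of symmetries, assembly. -/

set_option autoImplicit false

open scoped ComplexOrder Matrix
open Pool.Agent.W996.MW Finset

namespace Pool.Agent.TH269.GS

variable {ι : Type} [Fintype ι] [DecidableEq ι]

/-- the closure under adjoints -/
def clo (𝒢 : Set (Matrix ι ι ℂ)) : Set (Matrix ι ι ℂ) := {g | g ∈ 𝒢 ∨ gᴴ ∈ 𝒢}

theorem clo_star (𝒢 : Set (Matrix ι ι ℂ)) : ∀ g ∈ clo 𝒢, gᴴ ∈ clo 𝒢 := by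
  intro g hg
  rcases hg with h | h
  · right
    rwa [Matrix.conjTranspose_conjTranspose]
  · left
    exact h

theorem commutes_clo {𝒢 : Set (Matrix ι ι ℂ)} {E : Matrix ι ι ℂ} (h1 : Commutes 𝒢 E)
    (h2 : Commutes 𝒢 (Eᴴ)) : Commutes (clo 𝒢) E := by
  rintro g (hg | hg)
  · exact h1 g hg
  · have h3 := congrArg Matrix.conjTranspose (h2 _ hg)
    rw [Matrix.conjTranspose_mul, Matrix.conjTranspose_mul, Matrix.conjTranspose_conjTranspose,
      Matrix.conjTranspose_conjTranspose] at h3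
    exact h3.symm

theorem commutes_of_clo {𝒢 : Set (Matrix ι ι ℂ)} {E : Matrix ι ι ℂ} (h : Commutes (clo 𝒢) E) :
    Commutes 𝒢 E := fun g hg => h g (Or.inl hg)

theorem hasUnits_of_clo {𝒢 : Set (Matrix ι ι ℂ)} {m : ℕ} (h : HasUnits (clo 𝒢) m) :
    HasUnits 𝒢 m := by
  obtain ⟨e, h1, h2, h3, h4⟩ := h
  exact ⟨e, fun i j => commutes_of_clo (h1 i j), h2, h3, h4⟩

theorem hasUnits_clo {𝒢 : Set (Matrix ι ι ℂ)} {m : ℕ} (h : HasUnits 𝒢 m) :
    HasUnits (clo 𝒢) m := by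
  obtain ⟨e, h1, h2, h3, h4⟩ := h
  exact ⟨e, fun i j => commutes_clo (h1 i j) (by rw [h3]; exact h1 j i), h2, h3, h4⟩

/-- **Optimal witnesses** in one of `N` subspaces of dimension at most `m`. -/
theorem catalogue [Nonempty ι] {𝒢 : Set (Matrix ι ι ℂ)} {m : ℕ} (hm : ¬ HasUnits 𝒢 (m + 1)) :
    ∃ U : ι → Submodule ℂ (ι → ℂ), (∀ j, Module.finrank ℂ (U j) ≤ m) ∧
      ∀ E : Matrix ι ι ℂ, IsEffect E → Commutes 𝒢 E →
        ∃ j, ∃ ψ ∈ U j, normSq ψ = 1 ∧ ∀ φ : ι → ℂ, normSq φ = 1 → accept E φ ≤ accept E ψ := by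
  have hm' : ¬ Units (ops (clo 𝒢)) (m + 1) := fun h => hm (hasUnits_of_clo (hasUnits_of h))
  obtain ⟨w, hw1, hw⟩ := exists_family (starClosed (clo_star 𝒢))
  have e : ι ≃ Fin (Module.finrank ℂ (EuclideanSpace ℂ ι)) :=
    Fintype.equivOfCardEq (by rw [Fintype.card_fin, finrank_euclideanSpace])
  refine ⟨fun j => (Us (ops (clo 𝒢)) (w (e j))).map
    (WithLp.linearEquiv 2 ℂ (ι → ℂ)).toLinearMap, ?_, ?_⟩
  · intro j
    obtain ⟨W, hW, hwW⟩ := hw1 (e j)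
    have h1 := finrank_Us (starClosed (clo_star 𝒢)) hm' hW hwW
    have h2 := LinearEquiv.finrank_map_eq (WithLp.linearEquiv 2 ℂ (ι → ℂ))
      (Us (ops (clo 𝒢)) (w (e j)))
    exact h2.le.trans h1
  · intro E hE hC
    have hC' : Commutes (clo 𝒢) E :=
      commutes_clo hC (by rw [hE.1.isHermitian.eq]; exact hC)
    obtain ⟨j, v, hv, hv1, l, hl, hEv, hmax⟩ := exists_opt (clo_star 𝒢) hw hE.1 hC'
    refine ⟨e.symm j, fun i => v i, ?_, ?_, ?_⟩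
    · simp only
      rw [Equiv.apply_symm_apply]
      exact ⟨v, hv, rfl⟩
    · rw [Pool.Agent.TH269.SV.normSq_eq_norm, hv1, one_pow]
    · intro φ hφ
      refine (hmax φ hφ).trans (le_of_eq ?_)
      unfold accept
      rw [hEv, dotProduct_smul, Pool.Agent.TH269.SV.star_dot_self,
        Pool.Agent.TH269.SV.normSq_eq_norm, hv1]
      simp

theorem upper' [Nonempty ι] {𝒢 : Set (Matrix ι ι ℂ)} {m : ℕ} (hm : ¬ HasUnits 𝒢 (m + 1))
    {ε : ℝ} (hε : 0 < ε) (hε1 : ε < 1) (L : ℕ)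
    (hL : Real.logb 2 (Fintype.card ι) + 2 * m * Real.logb 2 (7 * m / ε) ≤ L) :
    ∃ F : (Fin L → Bool) → ι → ℂ, (∀ y, normSq (F y) = 1) ∧
      ∀ E : Matrix ι ι ℂ, IsEffect E → Commutes 𝒢 E → ∀ φ : ι → ℂ, normSq φ = 1 →
        ∃ y, (1 - ε) * accept E φ ≤ accept E (F y) := by
  obtain ⟨F, h1, h2⟩ := upper (clo_star 𝒢) (fun h => hm (hasUnits_of_clo h)) hε hε1 L hL
  refine ⟨F, h1, fun E hE hC => h2 E hE ?_⟩
  exact commutes_clo hC (by rw [hE.1.isHermitian.eq]; exact hC)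

end Pool.Agent.TH269.GS
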