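import Mathlib
import Pool.Agent.TH269.GS.Main

/-! Verifiers with symmetries: permutations of qudits. -/

set_option autoImplicit false

open scoped ComplexOrder Matrix
open Pool.Agent.W996.MW Finset

namespace Pool.Agent.TH269.GS

open Pool.Agent.TH269.SV (cnt)

section general

variable {ι : Type} [Fintype ι] [DecidableEq ι]

theorem units_indep {m : ℕ} {e : Fin m → Fin m → Matrix ι ι ℂ}
    (h2 : ∀ i j k l, e i j * e k l = if j = k then e i l else 0) (h4 : ∀ i, e i i ≠ 0) :
    LinearIndependent ℂ (fun p : Fin m × Fin m => e p.1 p.2) := by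
  rw [Fintype.linearIndependent_iff]
  rintro g hg ⟨k, l⟩
  have hkl : e k l ≠ 0 := by
    intro h0
    apply h4 k
    have := h2 k l l k
    rw [if_pos rfl, h0, zero_mul] at this
    exact this.symm
  have h5 : e k k * (∑ p : Fin m × Fin m, g p • e p.1 p.2) * e l l = g (k, l) • e k l := by
    rw [mul_sum, sum_mul, sum_eq_single (k, l)]
    · rw [mul_smul_comm, smul_mul_assoc, h2, if_pos rfl, h2, if_pos rfl]
    · rintro ⟨i, j⟩ _ hne
      rw [mul_smul_comm, smul_mul_assoc, h2]
      split_ifs with h6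
      · rw [h2]
        split_ifs with h7
        · exact absurd (by rw [h6, ← h7]) hne
        · simp
      · simp
    · intro h
      exact absurd (mem_univ _) h
  rw [hg, mul_zero, zero_mul] at h5
  rcases smul_eq_zero.1 h5.symm with h | h
  · exact h
  · exact absurd h hkl

/-- the multiplicities are bounded by the number of orbits of pairs -/
theorem units_le {𝒢 : Set (Matrix ι ι ℂ)} {κ : Type} [Fintype κ] (o : ι × ι → κ)
    (ho : ∀ E, Commutes 𝒢 E → ∀ p q, o p = o q → E p.1 p.2 = E q.1 q.2) {m : ℕ}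
    (h : HasUnits 𝒢 m) : m * m ≤ Fintype.card κ := by
  obtain ⟨e, h1, h2, h3, h4⟩ := h
  let Φ : (κ → ℂ) →ₗ[ℂ] Matrix ι ι ℂ :=
    { toFun := fun f => Matrix.of fun p q => f (o (p, q))
      map_add' := fun f g => by ext p q; simp
      map_smul' := fun c f => by ext p q; simp }
  have h5 : ∀ i j, ∃ f, Φ f = e i j := by
    intro i j
    refine ⟨Function.extend o (fun p => e i j p.1 p.2) 0, ?_⟩
    ext p q
    have h6 : Function.FactorsThrough (fun p : ι × ι => e i j p.1 p.2) o :=
      fun p q hpq => ho _ (h1 i j) p q hpq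
    exact h6.extend_apply 0 (p, q)
  choose f hf using h5
  have h6 : LinearIndependent ℂ (fun p : Fin m × Fin m => f p.1 p.2) := by
    refine LinearIndependent.of_comp Φ ?_
    have h7 : (Φ ∘ fun p : Fin m × Fin m => f p.1 p.2) = fun p : Fin m × Fin m => e p.1 p.2 := by
      funext p
      exact hf p.1 p.2
    rw [h7]
    exact units_indep h2 h4
  have h8 := h6.fintype_card_le_finrank
  rw [Fintype.card_prod, Fintype.card_fin, Module.finrank_fintype_fun_eq_card] at h8
  exact h8

end general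

theorem exists_perm {n : ℕ} {β : Type} [DecidableEq β] {z z' : Fin n → β}
    (h : ∀ b, (univ.filter fun i => z' i = b).card = (univ.filter fun i => z i = b).card) :
    ∃ π : Equiv.Perm (Fin n), ∀ i, z (π i) = z' i := by
  have e : ∀ b, {i // z' i = b} ≃ {i // z i = b} := fun b =>
    Fintype.equivOfCardEq (by rw [Fintype.card_subtype, Fintype.card_subtype, h b])
  refine ⟨(Equiv.sigmaFiberEquiv z').symm.trans ((Equiv.sigmaCongrRight e).trans
    (Equiv.sigmaFiberEquiv z)), fun i => ?_⟩
  exact (e (z' i) ⟨i, rfl⟩).2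

variable {D n d c : ℕ}

/-- Basis states: a value of an extra register of dimension `D`, and `n` qudits of dimension
`d`. -/
abbrev Qd (D n d : ℕ) : Type := Fin D × (Fin n → Fin d)

/-- The operator `E` does not change if two qudits of the same type are exchanged. -/
def SymmQ (τ : Fin n → Fin c) (E : Matrix (Qd D n d) (Qd D n d) ℂ) : Prop :=
  ∀ i j, τ i = τ j → ∀ a x b y,
    E (a, x ∘ Equiv.swap i j) (b, y ∘ Equiv.swap i j) = E (a, x) (b, y)

/-- exchange of two qudits -/
def ex (i j : Fin n) (p : Qd D n d) : Qd D n d := (p.1, p.2 ∘ Equiv.swap i j)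

theorem ex_ex (i j : Fin n) (p : Qd D n d) : ex i j (ex i j p) = p := by
  unfold ex
  refine Prod.ext rfl ?_
  funext k
  simp

/-- the matrix of an exchange -/
def swapM (i j : Fin n) : Matrix (Qd D n d) (Qd D n d) ℂ :=
  fun p q => if q = ex i j p then 1 else 0

/-- the matrices of the exchanges of qudits of the same type -/
def exch (D d : ℕ) (τ : Fin n → Fin c) : Set (Matrix (Qd D n d) (Qd D n d) ℂ) :=
  {g | ∃ i j, τ i = τ j ∧ g = swapM i j}

theorem swapM_mul (i j : Fin n) (E : Matrix (Qd D n d) (Qd D n d) ℂ) (p q : Qd D n d) :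
    ((swapM i j : Matrix (Qd D n d) (Qd D n d) ℂ) * E : Matrix (Qd D n d) (Qd D n d) ℂ) p q =
      E (ex i j p) q := by
  rw [Matrix.mul_apply, sum_eq_single (ex i j p)]
  · unfold swapM
    rw [if_pos rfl, one_mul]
  · intro r _ hr
    unfold swapM
    rw [if_neg hr, zero_mul]
  · intro h
    exact absurd (mem_univ _) h

theorem mul_swapM (i j : Fin n) (E : Matrix (Qd D n d) (Qd D n d) ℂ) (p q : Qd D n d) :
    (E * (swapM i j : Matrix (Qd D n d) (Qd D n d) ℂ) : Matrix (Qd D n d) (Qd D n d) ℂ) p q =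
      E p (ex i j q) := by
  rw [Matrix.mul_apply, sum_eq_single (ex i j q)]
  · unfold swapM
    rw [ex_ex, if_pos rfl, mul_one]
  · intro r _ hr
    unfold swapM
    rw [if_neg, mul_zero]
    rintro rfl
    exact hr (ex_ex i j r).symm
  · intro h
    exact absurd (mem_univ _) h

theorem commutes_exch {τ : Fin n → Fin c} {E : Matrix (Qd D n d) (Qd D n d) ℂ} :
    Commutes (exch D d τ) E ↔ SymmQ τ E := by
  constructor
  · intro h i j hij a x b y
    have h1 := h (swapM i j) ⟨i, j, hij, rfl⟩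
    have h2 := congrFun (congrFun h1 (a, x)) (ex i j (b, y))
    rw [swapM_mul, mul_swapM, ex_ex] at h2
    exact h2
  · rintro h _ ⟨i, j, hij, rfl⟩
    ext p q
    rw [swapM_mul, mul_swapM]
    have h1 := h i j hij p.1 p.2 (ex i j q).1 (ex i j q).2
    have h2 : ((ex i j q).1, (ex i j q).2 ∘ Equiv.swap i j) = q := ex_ex i j q
    rw [h2] at h1
    exact h1

/-- a symmetric operator is invariant under all permutations which preserve the types -/
theorem symm_perm {τ : Fin n → Fin c} {E : Matrix (Qd D n d) (Qd D n d) ℂ} (h : SymmQ τ E) :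
    ∀ (s : ℕ) (π : Equiv.Perm (Fin n)), π.support.card ≤ s → (∀ k, τ (π k) = τ k) →
      ∀ a x b y, E (a, x ∘ π) (b, y ∘ π) = E (a, x) (b, y) := by
  intro s
  induction s with
  | zero =>
    intro π hs hπ a x b y
    have h1 : π = 1 := by
      rw [← Equiv.Perm.card_support_eq_zero]
      omega
    subst h1
    rfl
  | succ s ih =>
    intro π hs hπ a x b y
    by_cases hone : π = 1
    · subst hone
      rfl
    obtain ⟨i, hi⟩ : ∃ i, π i ≠ i := by
      by_contra hcon
      push Not at hcon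
      exact hone (Equiv.ext hcon)
    set π' : Equiv.Perm (Fin n) := Equiv.swap i (π i) * π with hπ'
    have h1 : π'.support.card < π.support.card := Equiv.Perm.card_support_swap_mul hi
    have hsw : ∀ k, τ (Equiv.swap i (π i) k) = τ k := by
      intro k
      by_cases e1 : k = i
      · subst e1; rw [Equiv.swap_apply_left, hπ]
      · by_cases e2 : k = π i
        · rw [e2, Equiv.swap_apply_right, hπ]
        · rw [Equiv.swap_apply_of_ne_of_ne e1 e2]
    have h2 : ∀ k, τ (π' k) = τ k := by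
      intro k
      rw [hπ', Equiv.Perm.mul_apply, hsw, hπ]
    have h3 : ∀ z : Fin n → Fin d, z ∘ π = (z ∘ Equiv.swap i (π i)) ∘ π' := by
      intro z
      funext k
      simp [hπ']
    rw [h3 x, h3 y, ih π' (by omega) h2, h i (π i) (hπ i).symm]

/-- the orbit of a pair of basis states -/
def orbP (τ : Fin n → Fin c) (p : Qd D n d × Qd D n d) :
    Fin D × Fin D × ((t : Fin c) → Fin d × Fin d → Fin (cnt τ t + 1)) :=
  (p.1.1, p.2.1, fun t b => ⟨(univ.filter fun i => τ i = t ∧ (p.1.2 i, p.2.2 i) = b).card,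
    Nat.lt_succ_of_le (card_le_card fun i hi => by
      rw [mem_filter] at hi ⊢
      exact ⟨hi.1, hi.2.1⟩)⟩)

theorem orb_eq {τ : Fin n → Fin c} {E : Matrix (Qd D n d) (Qd D n d) ℂ} (h : SymmQ τ E)
    (p q : Qd D n d × Qd D n d) (hpq : orbP τ p = orbP τ q) : E p.1 p.2 = E q.1 q.2 := by
  obtain ⟨⟨a, x⟩, ⟨b, y⟩⟩ := p
  obtain ⟨⟨a', x'⟩, ⟨b', y'⟩⟩ := q
  unfold orbP at hpq
  simp only [Prod.mk.injEq] at hpq
  obtain ⟨rfl, rfl, h3⟩ := hpq
  have h4 : ∀ t b, (univ.filter fun i => τ i = t ∧ (x i, y i) = b).card =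
      (univ.filter fun i => τ i = t ∧ (x' i, y' i) = b).card := by
    intro t b
    have := congrFun (congrFun h3 t) b
    exact congrArg Fin.val this
  obtain ⟨π, hπ⟩ := exists_perm (z := fun i => (τ i, x i, y i)) (z' := fun i => (τ i, x' i, y' i))
    (fun b => by
      have h5 := h4 b.1 b.2
      have e1 : (univ.filter fun i => (τ i, x' i, y' i) = b) =
          (univ.filter fun i => τ i = b.1 ∧ (x' i, y' i) = b.2) := by
        ext i
        simp only [mem_filter, mem_univ, true_and]
        exact Prod.ext_iff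
      have e2 : (univ.filter fun i => (τ i, x i, y i) = b) =
          (univ.filter fun i => τ i = b.1 ∧ (x i, y i) = b.2) := by
        ext i
        simp only [mem_filter, mem_univ, true_and]
        exact Prod.ext_iff
      rw [e1, e2, h5])
  have h6 : ∀ k, τ (π k) = τ k := fun k => (Prod.mk.injEq _ _ _ _ ▸ hπ k).1
  have h7 : x' = x ∘ π := by
    funext k
    have := hπ k
    simp only [Prod.mk.injEq] at this
    exact this.2.1.symm
  have h8 : y' = y ∘ π := by
    funext k
    have := hπ k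
    simp only [Prod.mk.injEq] at this
    exact this.2.2.symm
  simp only
  rw [h7, h8]
  exact (symm_perm h _ π le_rfl h6 a x b y).symm

/-- `D ∏ (n_t + 1) ^ ⌈d² / 2⌉` -/
def bnd (D d : ℕ) (τ : Fin n → Fin c) : ℕ := D * ∏ t, (cnt τ t + 1) ^ ((d * d + 1) / 2)

theorem no_units (D d : ℕ) (τ : Fin n → Fin c) : ¬ HasUnits (exch D d τ) (bnd D d τ + 1) := by
  intro h
  have h1 := units_le (orbP τ) (fun E hE p q hpq => orb_eq (commutes_exch.1 hE) p q hpq) h
  rw [Fintype.card_prod, Fintype.card_prod, Fintype.card_fin, Fintype.card_pi] at h1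
  have h2 : ∀ t, Fintype.card (Fin d × Fin d → Fin (cnt τ t + 1)) = (cnt τ t + 1) ^ (d * d) := by
    intro t
    rw [Fintype.card_fun, Fintype.card_prod, Fintype.card_fin, Fintype.card_fin]
  rw [prod_congr rfl fun t _ => h2 t] at h1
  have h3 : ∏ t, (cnt τ t + 1) ^ (d * d) ≤
      (∏ t, (cnt τ t + 1) ^ ((d * d + 1) / 2)) * ∏ t, (cnt τ t + 1) ^ ((d * d + 1) / 2) := by
    rw [← prod_mul_distrib]
    refine prod_le_prod' fun t _ => ?_
    rw [← pow_add]
    exact Nat.pow_le_pow_right (by omega) (by omega)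
  have h4 : D * (D * ∏ t, (cnt τ t + 1) ^ (d * d)) ≤ bnd D d τ * bnd D d τ := by
    unfold bnd
    calc D * (D * ∏ t, (cnt τ t + 1) ^ (d * d))
        ≤ D * (D * ((∏ t, (cnt τ t + 1) ^ ((d * d + 1) / 2)) *
          ∏ t, (cnt τ t + 1) ^ ((d * d + 1) / 2))) := by gcongr
      _ = _ := by ring
  have h5 := h1.trans h4
  nlinarith

/-- **Permutations of qudits: classical witnesses suffice.** -/
theorem qudits (hD : 1 ≤ D) (hd : 1 ≤ d) (τ : Fin n → Fin c) {ε : ℝ} (hε : 0 < ε) (hε1 : ε < 1)
    (L : ℕ) (hL : Real.logb 2 (D * d ^ n) + 2 * bnd D d τ * Real.logb 2 (7 * bnd D d τ / ε) ≤ L) :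
    ∃ F : (Fin L → Bool) → Qd D n d → ℂ, (∀ y, normSq (F y) = 1) ∧
      ∀ E : Matrix (Qd D n d) (Qd D n d) ℂ, IsEffect E → SymmQ τ E →
        ∀ φ : Qd D n d → ℂ, normSq φ = 1 → ∃ y, (1 - ε) * accept E φ ≤ accept E (F y) := by
  have hne : Nonempty (Qd D n d) := ⟨(⟨0, hD⟩, fun _ => ⟨0, hd⟩)⟩
  have hcard : (Fintype.card (Qd D n d) : ℝ) = D * d ^ n := by
    rw [Fintype.card_prod, Fintype.card_fun, Fintype.card_fin, Fintype.card_fin, Fintype.card_fin]
    push_cast
    ring
  obtain ⟨F, h1, h2⟩ := upper' (no_units D d τ) hε hε1 L (by rw [hcard]; exact hL)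
  exact ⟨F, h1, fun E hE hS => h2 E hE (commutes_exch.2 hS)⟩

end Pool.Agent.TH269.GS
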