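import Mathlib
import Pool.Agent.TH269.GS.Qudit

/-! Verifiers with symmetries: the largest multiplicity. -/

set_option autoImplicit false

open scoped ComplexOrder Matrix
open Pool.Agent.W996.MW Finset

namespace Pool.Agent.TH269.GS

variable {ι : Type} [Fintype ι] [DecidableEq ι]

theorem hasUnits_mono {𝒢 : Set (Matrix ι ι ℂ)} {k m : ℕ} (hkm : k ≤ m) (h : HasUnits 𝒢 m) :
    HasUnits 𝒢 k := by
  obtain ⟨e, h1, h2, h3, h4⟩ := h
  refine ⟨fun i j => e (Fin.castLE hkm i) (Fin.castLE hkm j), fun i j => h1 _ _,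
    fun i j k l => ?_, fun i j => h3 _ _, fun i => h4 _⟩
  rw [h2]
  simp only [(Fin.castLE_injective hkm).eq_iff]

theorem exists_mult [Nonempty ι] (𝒢 : Set (Matrix ι ι ℂ)) :
    ∃ m, 1 ≤ m ∧ ∀ k, HasUnits 𝒢 k ↔ k ≤ m := by
  classical
  have hb : ∀ k, HasUnits 𝒢 k → k ≤ Fintype.card ι := by
    intro k hk
    have h1 := units_le (κ := ι × ι) id (fun E _ p q hpq => by
      simp only [id] at hpq
      rw [hpq]) hk
    rw [Fintype.card_prod] at h1
    exact Nat.mul_self_le_mul_self_iff.1 h1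
  have hN : 1 ≤ Fintype.card ι := Fintype.card_pos
  refine ⟨Nat.findGreatest (HasUnits 𝒢) (Fintype.card ι), ?_, fun k => ⟨fun hk => ?_, fun hk => ?_⟩⟩
  · exact Nat.le_findGreatest hN hasUnits_one
  · exact Nat.le_findGreatest (hb k hk) hk
  · exact hasUnits_mono hk (Nat.findGreatest_spec (P := HasUnits 𝒢) hN hasUnits_one)

end Pool.Agent.TH269.GS
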